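import Pool.Agent.H37QT.Fac
import Pool.Agent.Y703.QT12.Main

/-!
The number of twists whose `L`-function has many zeros in a small disc around the central point.
-/

set_option autoImplicit false

namespace Pool.Agent.H37QT

open Complex MeasureTheory Filter Topology Set
open Pool.Agent.Y19.QT Pool.Agent.Y703.QT8 Pool.Agent.Y703.QT12
open Pool.Agent.Y180.QT12b2 (Ep cx Ep_bound Ep_diff Lq_eq lj_le)
open Pool.Agent.Y180.QT12d1 (Sq pt measurableSet_Sq continuous_pt)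
open Pool.Agent.H306R2.RZ (js Gk)
open scoped ENNReal ComplexConjugate

variable {Q : ℕ} {lam : ℕ → ℝ} (T : Twists Q lam)

/-- the trivial bound for the number of zeros in the disc -/
theorem ord_bound' : ∃ C : ℝ, 1 ≤ C ∧ ∀ (d : ℤ) (X : ℕ), Squarefree d → 3 ≤ X → |d| ≤ X →
    ∀ (r : ℕ) (ρ : ℝ), ρ ≤ 1 / 8 → HasZ (T.ell d) ρ r → (r : ℝ) ≤ C * Real.log X := by
  obtain ⟨C, A, hC, h⟩ := T8d T
  have hc := c_pos T
  have hlog : 0 < Real.log (43 / 37) := Real.log_pos (by norm_num)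
  refine ⟨max 1 ((|Real.log (2 * T.c * C)| + A) / Real.log (43 / 37)), le_max_left _ _,
    fun d X hd hX hdX r ρ hρ hr => ?_⟩
  have hd1 := one_le_abs hd
  have hX0 : (0 : ℝ) < X := by exact_mod_cast (by omega : 0 < X)
  have hdX' : |(d : ℝ)| ≤ X := by exact_mod_cast hdX
  have hL1 : 1 ≤ Real.log X := log_ge_one hX
  obtain ⟨Z, m, hZ, hrm⟩ := hr
  obtain ⟨g, hg1, hg2⟩ := fac isOpen_univ (T8a T d hd).1.differentiableOn m Z
    fun a ha => ⟨mem_univ a, (hZ a ha).2⟩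
  have hg1' : Differentiable ℂ g := differentiableOn_univ.1 hg1
  set N : ℕ := ∑ a ∈ Z, m a with hN
  have hPlow : ∀ z : ℂ, ‖z - 1 / 2‖ = 11 / 2 → (43 / 8 : ℝ) ^ N ≤ ‖∏ a ∈ Z, (z - a) ^ m a‖ := by
    intro z hz
    rw [norm_prod, hN, ← Finset.prod_pow_eq_pow_sum]
    refine Finset.prod_le_prod (fun a _ => by positivity) fun a ha => ?_
    rw [norm_pow]
    refine pow_le_pow_left₀ (by norm_num) ?_ _
    have h3 : ‖z - 1 / 2‖ ≤ ‖z - a‖ + ‖a - 1 / 2‖ := by
      have : z - 1 / 2 = (z - a) + (a - 1 / 2) := by ring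
      rw [this]
      exact norm_add_le _ _
    have := (hZ a ha).1
    linarith
  have hPup : ‖∏ a ∈ Z, ((5 : ℂ) - a) ^ m a‖ ≤ (37 / 8 : ℝ) ^ N := by
    rw [norm_prod, hN, ← Finset.prod_pow_eq_pow_sum]
    refine Finset.prod_le_prod (fun a _ => by positivity) fun a ha => ?_
    rw [norm_pow]
    refine pow_le_pow_left₀ (by positivity) ?_ _
    have h3 : ‖(5 : ℂ) - a‖ ≤ ‖(5 : ℂ) - 1 / 2‖ + ‖a - 1 / 2‖ := by
      have : (5 : ℂ) - a = (5 - 1 / 2) - (a - 1 / 2) := by ring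
      rw [this]
      exact norm_sub_le _ _
    have h4 : ‖(5 : ℂ) - 1 / 2‖ = 9 / 2 := by norm_num
    have := (hZ a ha).1
    linarith
  have hmax : ‖g 5‖ ≤ C * |(d : ℝ)| ^ A / (43 / 8) ^ N := by
    refine Complex.norm_le_of_forall_mem_frontier_norm_le (U := Metric.ball (1 / 2 : ℂ) (11 / 2))
      Metric.isBounded_ball hg1'.diffContOnCl (fun z hz => ?_) ?_
    · rw [frontier_ball _ (by norm_num), mem_sphere_iff_norm] at hz
      have h1 := hg2 z (mem_univ _)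
      have h2 := h d z hd (by
        calc ‖z‖ = ‖(z - 1 / 2) + 1 / 2‖ := by ring_nf
          _ ≤ ‖z - 1 / 2‖ + ‖(1 / 2 : ℂ)‖ := norm_add_le _ _
          _ = 6 := by rw [hz]; norm_num)
      rw [h1, norm_mul] at h2
      rw [le_div_iff₀ (by positivity)]
      calc ‖g z‖ * (43 / 8) ^ N ≤ ‖g z‖ * ‖∏ a ∈ Z, (z - a) ^ m a‖ := by
            gcongr
            exact hPlow z hz
        _ ≤ _ := by rw [mul_comm]; exact h2
    · rw [closure_ball _ (by norm_num), Metric.mem_closedBall, dist_eq_norm]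
      norm_num
  have h5 : ‖T.ell d 5‖ ≤ (37 / 8) ^ N * ‖g 5‖ := by
    rw [hg2 5 (mem_univ _), norm_mul]
    gcongr
  have h6 := (ell_five T hd).trans h5
  have h7 : (43 / 37 : ℝ) ^ N ≤ 2 * T.c * C * |(d : ℝ)| ^ A := by
    have e1 : (43 / 37 : ℝ) ^ N = (43 / 8) ^ N / (37 / 8) ^ N := by rw [← div_pow]; norm_num
    rw [e1, div_le_iff₀ (by positivity)]
    have h8 : 1 / (2 * T.c) ≤ (37 / 8) ^ N * (C * |(d : ℝ)| ^ A / (43 / 8) ^ N) :=
      h6.trans (by gcongr)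
    rw [div_le_iff₀ (by positivity)] at h8
    have h9 : (37 / 8 : ℝ) ^ N * (C * |(d : ℝ)| ^ A / (43 / 8) ^ N) * (2 * T.c) =
      (2 * T.c * C * |(d : ℝ)| ^ A * (37 / 8) ^ N) / (43 / 8) ^ N := by ring
    rw [h9, le_div_iff₀ (by positivity), one_mul] at h8
    exact h8
  have h8 : (N : ℝ) * Real.log (43 / 37) ≤ |Real.log (2 * T.c * C)| + A * Real.log X := by
    have e := Real.log_le_log (by positivity) h7
    rw [Real.log_pow, Real.log_mul (by positivity) (by positivity), Real.log_pow] at e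
    have e2 : Real.log |(d : ℝ)| ≤ Real.log X := Real.log_le_log (by linarith) hdX'
    have e3 := le_abs_self (Real.log (2 * T.c * C))
    have e4 : (A : ℝ) * Real.log |(d : ℝ)| ≤ A * Real.log X := by gcongr
    linarith
  have hrN : (r : ℝ) ≤ N := by exact_mod_cast hrm
  calc (r : ℝ) ≤ (N : ℝ) := hrN
    _ ≤ (|Real.log (2 * T.c * C)| + A * Real.log X) / Real.log (43 / 37) := by
        rw [le_div_iff₀ hlog]; exact h8
    _ ≤ ((|Real.log (2 * T.c * C)| + A) * Real.log X) / Real.log (43 / 37) := by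
        gcongr
        have := abs_nonneg (Real.log (2 * T.c * C))
        nlinarith
    _ = (|Real.log (2 * T.c * C)| + A) / Real.log (43 / 37) * Real.log X := by ring
    _ ≤ _ := by gcongr; exact le_max_right _ _

/-- the set of `d` with at least `r` zeros in the disc -/
noncomputable def SZ (X r : ℕ) (ρ : ℝ) : Finset ℤ := by
  classical
  exact (sqf X).filter (fun d => HasZ (T.ell d) ρ r)

lemma mem_SZ {X r : ℕ} {ρ : ℝ} {d : ℤ} :
    d ∈ SZ T X r ρ ↔ d ∈ sqf X ∧ HasZ (T.ell d) ρ r := by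
  unfold SZ
  simp

lemma SZ_sub (X r : ℕ) (ρ : ℝ) : SZ T X r ρ ⊆ sqf X := fun _ hd => (mem_SZ T |>.1 hd).1

/-- the first sum -/
theorem sum_vv' : ∃ (C : ℝ) (A : ℕ), 0 < C ∧ ∀ (X Y r : ℕ) (δ ρ : ℝ), 3 ≤ X → 1 ≤ Y →
    (Y : ℝ) ^ 4 ≤ X → 1 / Real.log X ≤ 9 * δ → δ ≤ 1 / 100 → 4 * ρ ≤ δ →
    δ ^ 2 * 3 ^ r * ∑ d ∈ SZ T X r ρ, ‖vv T Y δ d‖ ≤
      C * (X : ℝ) ^ (1 + 32 * δ) * Real.log X ^ A := by
  obtain ⟨C1, A1, hC1, h1⟩ := mean_Sq T
  obtain ⟨C2, A2, hC2, h2⟩ := mean_Mol T.hecke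
  refine ⟨C1 + C2, A1 + A2, by positivity, fun X Y r δ ρ hX hY hYX hδ1 hδ2 hρ => ?_⟩
  have hX0 : (0 : ℝ) < X := by exact_mod_cast (by omega : 0 < X)
  have hX1 : (1 : ℝ) ≤ X := by exact_mod_cast (by omega : 1 ≤ X)
  have hL := log_ge_one hX
  have hY1 : (1 : ℝ) ≤ Y := by exact_mod_cast hY
  have hδ : 0 < δ := by
    have : 0 < 1 / Real.log X := by positivity
    linarith
  have hpi := Real.pi_gt_three
  have hYX1 : (Y : ℝ) ≤ X := by
    calc (Y : ℝ) ≤ (Y : ℝ) ^ 4 := le_self_pow₀ hY1 (by norm_num)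
      _ ≤ X := hYX
  have key : ∀ d ∈ SZ T X r ρ, ENNReal.ofReal (3 * δ * (5 * δ)) * (ENNReal.ofReal (2 * Real.pi) *
      ENNReal.ofReal (3 ^ r * ‖vv T Y δ d‖)) ≤
      (∫⁻ p in Sq δ, ‖T.Lq d (pt δ p)‖ₑ ^ 2) + ∫⁻ p in Sq δ, ‖Mol Q lam Y d (pt δ p)‖ₑ ^ 2 := by
    intro d hd
    obtain ⟨hd1, Z, m, hZ, hrm⟩ := (mem_SZ T).1 hd
    obtain ⟨g, hg1, hg2⟩ := fac isOpen_univ (T8a T d (sqf_sqf hd1)).1.differentiableOn m Z
      fun a ha => ⟨mem_univ a, (hZ a ha).2⟩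
    have hball : Metric.ball (1 / 2 : ℂ) (20 * δ) ⊆ {s : ℂ | 1 / 4 < s.re} := by
      intro s hs
      rw [Metric.mem_ball, dist_eq_norm] at hs
      have h3 := (Complex.abs_re_le_norm (s - 1 / 2)).trans hs.le
      have h4 : (s - 1 / 2).re = s.re - 1 / 2 := by simp
      rw [h4] at h3
      have := (abs_le.1 h3).1
      show 1 / 4 < s.re
      linarith
    have hdiff : DifferentiableOn ℂ (T.Lq d) (Metric.ball (1 / 2) (20 * δ)) :=
      (Lq_diff T (sqf_sqf hd1)).mono hball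
    have hgE : DifferentiableOn ℂ (fun z => g z * Ep T d z) (Metric.ball (1 / 2) (20 * δ)) :=
      (hg1.mono (subset_univ _)).mul ((Ep_diff T (sqf_sqf hd1)).mono hball)
    have h5 := stepB' (L := T.Lq d) (M := fun s => Mol Q lam Y d s)
      (g := fun z => g z * Ep T d z) (P := fun z => ∏ a ∈ Z, (z - a) ^ m a)
      (K := 3 ^ r) (by positivity) hδ hdiff (mol_diff Y d).differentiableOn hgE
      (fun z _ => by rw [Lq_def, hg2 z (mem_univ z)]; ring)
      (fun z hz => pol_le hρ (fun a ha => (hZ a ha).1) hrm hδ hz)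
    have hm : Measurable fun p : ℝ × ℝ => ‖Mol Q lam Y d (pt δ p)‖ₑ ^ 2 :=
      (((mol_cont Y d).comp (continuous_pt δ)).enorm.measurable).pow_const 2
    rw [← lintegral_add_right _ hm]
    refine h5.trans (lintegral_mono fun p => ?_)
    rcases le_total ‖T.Lq d (pt δ p)‖ₑ ‖Mol Q lam Y d (pt δ p)‖ₑ with h | h
    · calc ‖T.Lq d (pt δ p)‖ₑ * ‖Mol Q lam Y d (pt δ p)‖ₑ
          ≤ ‖Mol Q lam Y d (pt δ p)‖ₑ * ‖Mol Q lam Y d (pt δ p)‖ₑ := by gcongr
        _ = ‖Mol Q lam Y d (pt δ p)‖ₑ ^ 2 := (sq _).symm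
        _ ≤ _ := le_add_self
    · calc ‖T.Lq d (pt δ p)‖ₑ * ‖Mol Q lam Y d (pt δ p)‖ₑ
          ≤ ‖T.Lq d (pt δ p)‖ₑ * ‖T.Lq d (pt δ p)‖ₑ := by gcongr
        _ = ‖T.Lq d (pt δ p)‖ₑ ^ 2 := (sq _).symm
        _ ≤ _ := le_self_add
  have hsum : ENNReal.ofReal (3 * δ * (5 * δ) * (2 * Real.pi) *
      (3 ^ r * ∑ d ∈ SZ T X r ρ, ‖vv T Y δ d‖)) ≤
      ENNReal.ofReal (C1 * (X : ℝ) ^ (1 + 32 * δ) * Real.log X ^ A1 +
        C2 * X * Real.log X ^ A2 * (Y : ℝ) ^ (14 * δ)) := by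
    rw [ENNReal.ofReal_mul (by positivity), ENNReal.ofReal_mul (by positivity), mul_assoc,
      Finset.mul_sum, ENNReal.ofReal_sum_of_nonneg (fun d _ => by positivity), Finset.mul_sum,
      Finset.mul_sum, ENNReal.ofReal_add (by positivity) (by positivity)]
    refine (Finset.sum_le_sum key).trans ?_
    rw [Finset.sum_add_distrib]
    refine add_le_add ?_ ?_
    · exact (Finset.sum_le_sum_of_subset (SZ_sub T X r ρ)).trans (h1 X δ hX hδ1 hδ2)
    · exact (Finset.sum_le_sum_of_subset (SZ_sub T X r ρ)).trans (h2 X Y δ hX hY hYX hδ hδ2)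
  have hreal := (ENNReal.ofReal_le_ofReal_iff (by positivity)).1 hsum
  have hV : 0 ≤ ∑ d ∈ SZ T X r ρ, ‖vv T Y δ d‖ := Finset.sum_nonneg fun d _ => norm_nonneg _
  have e1 : (X : ℝ) * (Y : ℝ) ^ (14 * δ) ≤ (X : ℝ) ^ (1 + 32 * δ) := by
    rw [Real.rpow_add hX0, Real.rpow_one]
    gcongr
    calc (Y : ℝ) ^ (14 * δ) ≤ (X : ℝ) ^ (14 * δ) :=
          Real.rpow_le_rpow (by positivity) hYX1 (by positivity)
      _ ≤ (X : ℝ) ^ (32 * δ) := Real.rpow_le_rpow_of_exponent_le hX1 (by linarith)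
  have h8 : Real.log X ^ A1 ≤ Real.log X ^ (A1 + A2) := pow_le_pow_right₀ hL (by omega)
  have h9 : Real.log X ^ A2 ≤ Real.log X ^ (A1 + A2) := pow_le_pow_right₀ hL (by omega)
  calc δ ^ 2 * 3 ^ r * ∑ d ∈ SZ T X r ρ, ‖vv T Y δ d‖
      ≤ 30 * Real.pi * (δ ^ 2 * 3 ^ r * ∑ d ∈ SZ T X r ρ, ‖vv T Y δ d‖) := by
        have : 0 ≤ δ ^ 2 * 3 ^ r * ∑ d ∈ SZ T X r ρ, ‖vv T Y δ d‖ := by positivity
        nlinarith
    _ = 3 * δ * (5 * δ) * (2 * Real.pi) * (3 ^ r * ∑ d ∈ SZ T X r ρ, ‖vv T Y δ d‖) := by ring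
    _ ≤ C1 * (X : ℝ) ^ (1 + 32 * δ) * Real.log X ^ A1 +
        C2 * X * Real.log X ^ A2 * (Y : ℝ) ^ (14 * δ) := hreal
    _ = C1 * (X : ℝ) ^ (1 + 32 * δ) * Real.log X ^ A1 +
        C2 * (X * (Y : ℝ) ^ (14 * δ)) * Real.log X ^ A2 := by ring
    _ ≤ C1 * (X : ℝ) ^ (1 + 32 * δ) * Real.log X ^ (A1 + A2) +
        C2 * (X : ℝ) ^ (1 + 32 * δ) * Real.log X ^ (A1 + A2) := by gcongr
    _ = _ := by ring

lemma three_pow (r : ℕ) : Real.exp (r : ℝ) ≤ 3 ^ r := by
  have h1 := Real.exp_one_lt_d9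
  calc Real.exp (r : ℝ) = Real.exp 1 ^ r := by rw [← Real.exp_nat_mul, mul_one]
    _ ≤ 3 ^ r := pow_le_pow_left₀ (Real.exp_pos _).le (by linarith) r

set_option maxHeartbeats 4000000 in
/-- the middle range -/
theorem card_mid' : ∃ (C : ℝ) (A : ℕ), 0 < C ∧ ∀ (X r : ℕ) (ρ : ℝ), 3 ≤ X → 12 ≤ r →
    (r : ℝ) ≤ Real.log X → 400 * (ρ * Real.log X) ≤ r →
    ((SZ T X r ρ).card : ℝ) ≤ C * X * Real.log X ^ A * Real.exp (-(r / 800)) := by
  obtain ⟨C1, A1, hC1, h1⟩ := sum_vv' T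
  obtain ⟨C2, A2, hC2, h2⟩ := sum_uu T
  refine ⟨81 * C1 + C2 * (2 + 2 * 9 ^ A2 + 1 + 1 + 9), A1 + 2 + (2 * A2 + 1), by positivity,
    fun X r ρ hX hr hrX hρr => ?_⟩
  have hX0 : (0 : ℝ) < X := by exact_mod_cast (by omega : 0 < X)
  have hX1 : (1 : ℝ) ≤ X := by exact_mod_cast (by omega : 1 ≤ X)
  set L := Real.log X with hLdef
  have hr' : (12 : ℝ) ≤ r := by exact_mod_cast hr
  have hL12 : 12 ≤ L := by linarith
  have hL1 : 1 ≤ L := by linarith
  have hXL : Real.exp L = X := Real.exp_log hX0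
  set δ : ℝ := r / (100 * L) with hδdef
  have hδ : 0 < δ := by positivity
  have hδL : δ * L = r / 100 := by rw [hδdef]; field_simp
  have hρδ : 4 * ρ ≤ δ := by
    rw [hδdef, le_div_iff₀ (by positivity)]
    linarith
  have hδ1 : δ ≤ 1 / 100 := by
    rw [hδdef, div_le_div_iff₀ (by positivity) (by norm_num)]; linarith
  have hδ2 : 1 / L ≤ 9 * δ := by
    rw [hδdef, ← mul_div_assoc, div_le_div_iff₀ (by positivity) (by positivity)]
    nlinarith
  have hδi : δ⁻¹ ≤ 9 * L := by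
    rw [hδdef, inv_div, div_le_iff₀ (by positivity)]
    nlinarith
  set Z : ℝ := (X : ℝ) ^ (1 / 4 : ℝ) with hZdef
  have hZ4 : Z ^ 4 = X := by
    rw [hZdef, ← Real.rpow_natCast, ← Real.rpow_mul hX0.le]
    norm_num
  have hZ1 : 1 ≤ Z := Real.one_le_rpow hX1 (by norm_num)
  have hZ0 : 0 < Z := by linarith
  have hZexp : Z = Real.exp (L / 4) := by
    rw [hZdef, Real.rpow_def_of_pos hX0]
    congr 1
    rw [← hLdef]; ring
  set Y : ℕ := ⌊Z⌋₊ with hYdef
  have hY1 : 1 ≤ Y := Nat.floor_pos.2 hZ1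
  have hY1' : (1 : ℝ) ≤ Y := by exact_mod_cast hY1
  have hYZ : (Y : ℝ) ≤ Z := Nat.floor_le hZ0.le
  have hZY : Z ≤ 2 * Y := by
    have := (Nat.lt_floor_add_one Z).le
    rw [← hYdef] at this
    linarith
  have hYX : (Y : ℝ) ^ 4 ≤ X := by
    rw [← hZ4]; gcongr
  -- exponentials
  set E := Real.exp (-(r / 800)) with hE
  have hE0 : 0 < E := Real.exp_pos _
  have f1 : (X : ℝ) ^ (1 + 32 * δ) = X * Real.exp (8 / 25 * r) := by
    rw [Real.rpow_add hX0, Real.rpow_one, Real.rpow_def_of_pos hX0, ← hLdef]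
    congr 2
    rw [show L * (32 * δ) = 32 * (δ * L) by ring, hδL]
    ring
  have f2 : Z ^ (-δ) = Real.exp (-(r / 400)) := by
    rw [hZexp, ← Real.exp_mul]
    congr 1
    rw [show L / 4 * -δ = -(δ * L) / 4 by ring, hδL]
    ring
  set τ := (Y : ℝ) ^ (-(δ / 2)) with hτdef
  have hτ0 : 0 < τ := Real.rpow_pos_of_pos (by linarith) _
  have f3 : τ ≤ 2 * E := by
    have h3 : τ ≤ (Z / 2) ^ (-(δ / 2)) := by
      rw [hτdef, Real.rpow_neg (by positivity), Real.rpow_neg (by positivity)]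
      apply inv_anti₀ (by positivity)
      apply Real.rpow_le_rpow (by positivity) (by linarith) (by positivity)
    have h4 : (Z / 2) ^ (-(δ / 2)) = Z ^ (-(δ / 2)) * 2 ^ (δ / 2) := by
      rw [Real.div_rpow hZ0.le (by norm_num), Real.rpow_neg (by norm_num : (0 : ℝ) ≤ 2)]
      field_simp
    have h5 : Z ^ (-(δ / 2)) = E := by
      rw [hZexp, ← Real.exp_mul, hE]
      congr 1
      rw [show L / 4 * -(δ / 2) = -(δ * L) / 8 by ring, hδL]
      ring
    have h6 : (2 : ℝ) ^ (δ / 2) ≤ 2 := by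
      calc (2 : ℝ) ^ (δ / 2) ≤ 2 ^ (1 : ℝ) :=
            Real.rpow_le_rpow_of_exponent_le (by norm_num) (by linarith)
        _ = 2 := Real.rpow_one 2
    rw [h4, h5] at h3
    nlinarith
  have f4 : τ⁻¹ * (Y : ℝ) ^ (-δ) = τ := by
    have : (Y : ℝ) ^ (-δ) = τ * τ := by
      rw [hτdef, ← Real.rpow_add (by linarith)]; congr 1; ring
    rw [this]; field_simp
  have f5 : τ⁻¹ ≤ X * E := by
    have h3 : τ⁻¹ = (Y : ℝ) ^ (δ / 2) := by
      rw [hτdef, Real.rpow_neg (by positivity), inv_inv]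
    rw [h3]
    calc (Y : ℝ) ^ (δ / 2) ≤ Z ^ (δ / 2) := Real.rpow_le_rpow (by positivity) hYZ (by positivity)
      _ = Real.exp (r / 800) := by
          rw [hZexp, ← Real.exp_mul]
          congr 1
          rw [show L / 4 * (δ / 2) = (δ * L) / 8 by ring, hδL]
          ring
      _ ≤ Real.exp (L + -(r / 800)) := by
          apply Real.exp_le_exp.2
          linarith
      _ = X * E := by rw [Real.exp_add, hXL]
  have f6 : Z⁻¹ ≤ E := by
    rw [hZexp, ← Real.exp_neg, hE]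
    apply Real.exp_le_exp.2
    linarith
  -- the first sum
  have hV : ∑ d ∈ SZ T X r ρ, ‖vv T Y δ d‖ ≤ 81 * C1 * X * L ^ (A1 + 2) * E := by
    have h3 := h1 X Y r δ ρ hX hY1 hYX hδ2 hδ1 hρδ
    rw [f1] at h3
    have h4 : 0 < δ ^ 2 * 3 ^ r := by positivity
    have h5 : 1 ≤ δ ^ 2 * (81 * L ^ 2) := by
      have : (1 : ℝ) ≤ δ * (9 * L) := by
        have := mul_le_mul_of_nonneg_left hδi hδ.le
        rwa [mul_inv_cancel₀ hδ.ne'] at this
      calc (1 : ℝ) = 1 ^ 2 := by norm_num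
        _ ≤ (δ * (9 * L)) ^ 2 := by gcongr
        _ = _ := by ring
    have h6 : Real.exp (8 / 25 * r) ≤ 3 ^ r * E := by
      calc Real.exp (8 / 25 * r) ≤ Real.exp ((r : ℝ) + -(r / 800)) := by
            apply Real.exp_le_exp.2; linarith
        _ = Real.exp (r : ℝ) * E := Real.exp_add _ _
        _ ≤ 3 ^ r * E := by gcongr; exact three_pow r
    refine le_of_mul_le_mul_left (h3.trans ?_) h4
    calc C1 * (X * Real.exp (8 / 25 * r)) * L ^ A1
        ≤ C1 * (X * (3 ^ r * E)) * L ^ A1 * 1 := by rw [mul_one]; gcongr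
      _ ≤ C1 * (X * (3 ^ r * E)) * L ^ A1 * (δ ^ 2 * (81 * L ^ 2)) := by gcongr
      _ = _ := by ring
  -- the second sum
  have hU : ∑ d ∈ sqf X, ‖vv T Y δ d - 1‖ ≤
      C2 * (2 + 2 * 9 ^ A2 + 1 + 1 + 9) * X * L ^ (2 * A2 + 1) * E := by
    have h3 := h2 X Y Z δ τ hX (by linarith) hY1 hYX hZ1 hZ4.le hδ (by linarith) hτ0
    rw [f2] at h3
    have g1 : X * τ ≤ 2 * (X * E) := by nlinarith
    have g2 : τ⁻¹ * X * (Y : ℝ) ^ (-δ) * δ⁻¹ ^ A2 ≤ 2 * (X * E) * (9 ^ A2 * L ^ A2) := by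
      calc τ⁻¹ * X * (Y : ℝ) ^ (-δ) * δ⁻¹ ^ A2 = X * (τ⁻¹ * (Y : ℝ) ^ (-δ)) * δ⁻¹ ^ A2 := by ring
        _ = X * τ * δ⁻¹ ^ A2 := by rw [f4]
        _ ≤ (2 * (X * E)) * (9 * L) ^ A2 := by gcongr
        _ = _ := by rw [mul_pow]
    have g3 : X * Z⁻¹ ≤ X * E := by gcongr
    have g4 : δ⁻¹ * Real.exp (-(r / 400)) * X ≤ 9 * L * (X * E) := by
      have : Real.exp (-(r / 400)) ≤ E := by
        rw [hE]; apply Real.exp_le_exp.2; linarith
      calc δ⁻¹ * Real.exp (-(r / 400)) * X ≤ (9 * L) * E * X := by gcongr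
        _ = _ := by ring
    have gL : 1 ≤ L ^ (A2 + 1) := one_le_pow₀ hL1
    have gL2 : L ^ A2 ≤ L ^ (A2 + 1) := pow_le_pow_right₀ hL1 (by omega)
    have gL3 : L ≤ L ^ (A2 + 1) := le_self_pow₀ hL1 (by omega)
    calc ∑ d ∈ sqf X, ‖vv T Y δ d - 1‖
        ≤ C2 * L ^ A2 * (X * τ + τ⁻¹ * X * (Y : ℝ) ^ (-δ) * (δ⁻¹) ^ A2 +
          τ⁻¹ + X * Z⁻¹ + δ⁻¹ * Real.exp (-(r / 400)) * X) := h3
      _ ≤ C2 * L ^ A2 * (2 * (X * E) * 1 + 2 * (X * E) * (9 ^ A2 * L ^ A2) + X * E * 1 +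
          X * E * 1 + 9 * L * (X * E)) := by
          rw [mul_one, mul_one]
          gcongr
      _ ≤ C2 * L ^ A2 * (2 * (X * E) * L ^ (A2 + 1) + 2 * (X * E) * (9 ^ A2 * L ^ (A2 + 1)) +
          X * E * L ^ (A2 + 1) + X * E * L ^ (A2 + 1) + 9 * L ^ (A2 + 1) * (X * E)) := by
          gcongr
      _ = _ := by ring
  -- conclusion
  have hcount : ((SZ T X r ρ).card : ℝ) ≤ ∑ d ∈ SZ T X r ρ, ‖vv T Y δ d‖ +
      ∑ d ∈ sqf X, ‖vv T Y δ d - 1‖ := by
    calc ((SZ T X r ρ).card : ℝ) = ∑ d ∈ SZ T X r ρ, (1 : ℝ) := by simp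
      _ ≤ ∑ d ∈ SZ T X r ρ, (‖vv T Y δ d‖ + ‖vv T Y δ d - 1‖) := by
          refine Finset.sum_le_sum fun d _ => ?_
          have := norm_sub_le (vv T Y δ d) (vv T Y δ d - 1)
          simpa using this
      _ = ∑ d ∈ SZ T X r ρ, ‖vv T Y δ d‖ + ∑ d ∈ SZ T X r ρ, ‖vv T Y δ d - 1‖ :=
          Finset.sum_add_distrib
      _ ≤ _ := by
          gcongr
          exact SZ_sub T X r ρ
  have p1 : L ^ (A1 + 2) ≤ L ^ (A1 + 2 + (2 * A2 + 1)) := pow_le_pow_right₀ hL1 (by omega)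
  have p2 : L ^ (2 * A2 + 1) ≤ L ^ (A1 + 2 + (2 * A2 + 1)) := pow_le_pow_right₀ hL1 (by omega)
  calc ((SZ T X r ρ).card : ℝ) ≤ 81 * C1 * X * L ^ (A1 + 2) * E +
        C2 * (2 + 2 * 9 ^ A2 + 1 + 1 + 9) * X * L ^ (2 * A2 + 1) * E := by linarith
    _ ≤ 81 * C1 * X * L ^ (A1 + 2 + (2 * A2 + 1)) * E +
        C2 * (2 + 2 * 9 ^ A2 + 1 + 1 + 9) * X * L ^ (A1 + 2 + (2 * A2 + 1)) * E := by gcongr
    _ = _ := by ring

/-- all numbers of zeros and all discs -/
theorem card_all' : ∃ (C c κ : ℝ) (A : ℕ), 0 < C ∧ 0 < c ∧ 0 < κ ∧ ∀ (X r : ℕ) (ρ : ℝ), 3 ≤ X →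
    0 ≤ ρ → ρ ≤ 1 / 8 →
    ((SZ T X r ρ).card : ℝ) ≤
      C * X * Real.log X ^ A * Real.exp (-(c * (r - κ * (ρ * Real.log X)))) := by
  obtain ⟨C1, A, hC1, h1⟩ := card_mid' T
  obtain ⟨D, hD, h2⟩ := ord_bound' T
  have hD0 : 0 < D := by linarith
  refine ⟨(3 + C1) * Real.exp 12, 1 / (800 * D), 800 * D + 400, A, by positivity, by positivity,
    by positivity, fun X r ρ hX hρ0 hρ1 => ?_⟩
  have hX0 : (0 : ℝ) < X := by exact_mod_cast (by omega : 0 < X)
  have hL1 := log_ge_one hX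
  set L := Real.log X with hLdef
  have hL0 : 0 < L := by linarith
  have hLA : 1 ≤ L ^ A := one_le_pow₀ hL1
  set κ : ℝ := 800 * D + 400 with hκ
  have hρL : 0 ≤ ρ * L := by positivity
  have triv : ((SZ T X r ρ).card : ℝ) ≤ 3 * X := by
    refine le_trans ?_ (card_sqf (X := X) (by omega))
    exact_mod_cast Finset.card_le_card (SZ_sub T X r ρ)
  have small : (r : ℝ) - κ * (ρ * L) ≤ 12 * D →
      ((SZ T X r ρ).card : ℝ) ≤
        (3 + C1) * Real.exp 12 * X * L ^ A * Real.exp (-(1 / (800 * D) * (r - κ * (ρ * L)))) := by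
    intro hr
    have e1 : 1 ≤ Real.exp 12 * Real.exp (-(1 / (800 * D) * (r - κ * (ρ * L)))) := by
      rw [← Real.exp_add, Real.one_le_exp_iff]
      have : 1 / (800 * D) * (r - κ * (ρ * L)) ≤ 12 := by
        rw [div_mul_eq_mul_div, one_mul, div_le_iff₀ (by positivity)]
        nlinarith
      linarith
    calc ((SZ T X r ρ).card : ℝ) ≤ 3 * X * 1 * 1 := by linarith
      _ ≤ (3 + C1) * X * L ^ A *
          (Real.exp 12 * Real.exp (-(1 / (800 * D) * (r - κ * (ρ * L))))) := by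
          gcongr; linarith
      _ = _ := by ring
  have hκρ : 0 ≤ κ * (ρ * L) := by positivity
  rcases Nat.lt_or_ge r 12 with hr | hr
  · apply small
    have : (r : ℝ) ≤ 12 := by exact_mod_cast hr.le
    nlinarith
  rcases lt_or_ge (r : ℝ) (400 * (ρ * L)) with hr4 | hr4
  · apply small
    have : 400 * (ρ * L) ≤ κ * (ρ * L) := by
      rw [hκ]
      nlinarith [mul_nonneg hD0.le hρL]
    nlinarith
  rcases le_or_gt (r : ℝ) L with hrL | hrL
  · refine (h1 X r ρ hX hr hrL hr4).trans ?_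
    have e2 : Real.exp (-(r / 800 : ℝ)) ≤
        Real.exp 12 * Real.exp (-(1 / (800 * D) * (r - κ * (ρ * L)))) := by
      rw [← Real.exp_add]
      apply Real.exp_le_exp.2
      have h3 : 1 / (800 * D) * (r - κ * (ρ * L)) ≤ 1 / (800 * D) * r := by
        have : 0 ≤ 1 / (800 * D) * (κ * (ρ * L)) := by positivity
        linarith
      have : 1 / (800 * D) * r ≤ 1 / 800 * r := by
        gcongr
        linarith
      linarith
    calc C1 * X * L ^ A * Real.exp (-(r / 800 : ℝ))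
        ≤ (3 + C1) * X * L ^ A *
          (Real.exp 12 * Real.exp (-(1 / (800 * D) * (r - κ * (ρ * L))))) := by
          gcongr; linarith
      _ = _ := by ring
  rcases le_or_gt (r : ℝ) (D * L) with hrD | hrD
  · rcases lt_or_ge L 12 with hL12 | hL12
    · apply small
      nlinarith
    · rcases le_or_gt (800 * ρ) 1 with hρ8 | hρ8
      · set s := ⌊L⌋₊ with hs
        have hs12 : 12 ≤ s := Nat.le_floor (by exact_mod_cast hL12)
        have hsL : (s : ℝ) ≤ L := Nat.floor_le (by linarith)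
        have hLs : L ≤ s + 1 := (Nat.lt_floor_add_one L).le
        have hs12' : (12 : ℝ) ≤ s := by exact_mod_cast hs12
        have hs4 : 400 * (ρ * L) ≤ s := by
          have : 800 * ρ * L ≤ 1 * L := by gcongr
          linarith
        have hsr : s ≤ r := by
          have : (s : ℝ) ≤ r := by linarith
          exact_mod_cast this
        have hsub : SZ T X r ρ ⊆ SZ T X s ρ := by
          intro d hd
          obtain ⟨hd1, hd2⟩ := (mem_SZ T).1 hd
          exact (mem_SZ T).2 ⟨hd1, hd2.mono hsr⟩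
        have e2 : Real.exp (-(s / 800 : ℝ)) ≤
            Real.exp 12 * Real.exp (-(1 / (800 * D) * (r - κ * (ρ * L)))) := by
          rw [← Real.exp_add]
          apply Real.exp_le_exp.2
          have h3 : 1 / (800 * D) * (r - κ * (ρ * L)) ≤ 1 / (800 * D) * r := by
            have : 0 ≤ 1 / (800 * D) * (κ * (ρ * L)) := by positivity
            linarith
          have h4 : 1 / (800 * D) * r ≤ L / 800 := by
            rw [div_mul_eq_mul_div, one_mul, div_le_div_iff₀ (by positivity) (by norm_num)]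
            nlinarith
          linarith
        calc ((SZ T X r ρ).card : ℝ) ≤ ((SZ T X s ρ).card : ℝ) := by
              exact_mod_cast Finset.card_le_card hsub
          _ ≤ C1 * X * L ^ A * Real.exp (-(s / 800 : ℝ)) := h1 X s ρ hX hs12 hsL hs4
          _ ≤ (3 + C1) * X * L ^ A *
              (Real.exp 12 * Real.exp (-(1 / (800 * D) * (r - κ * (ρ * L))))) := by
              gcongr; linarith
          _ = _ := by ring
      · apply small
        have h3 : D * L ≤ κ * (ρ * L) := by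
          have h4 : 1 * (D * L) ≤ 800 * ρ * (D * L) := by gcongr
          have h5 : 0 ≤ 400 * (ρ * L) := by positivity
          have h6 : κ * (ρ * L) = 800 * ρ * (D * L) + 400 * (ρ * L) := by rw [hκ]; ring
          linarith
        nlinarith
  · have hempty : SZ T X r ρ = ∅ := by
      rw [Finset.eq_empty_iff_forall_notMem]
      intro d hd
      obtain ⟨hd1, hd2⟩ := (mem_SZ T).1 hd
      have := h2 d X (sqf_sqf hd1) hX (mem_sqf.1 hd1).1 r ρ hρ1 hd2
      linarith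
    rw [hempty]
    simp only [Finset.card_empty, Nat.cast_zero]
    positivity

/-- exponential moments of the number of zeros in a disc -/
theorem expZ : ∃ (C c κ : ℝ) (A : ℕ), 0 < C ∧ 0 < c ∧ 0 < κ ∧ ∀ (X : ℕ) (ρ : ℝ), 3 ≤ X →
    0 ≤ ρ → ρ ≤ 1 / 8 → ∀ n : ℤ → ℕ, (∀ d ∈ sqf X, HasZ (T.ell d) ρ (n d)) →
      ∑ d ∈ sqf X, Real.exp (c * (n d - ⌈κ * (ρ * Real.log X)⌉₊ : ℕ)) ≤
        C * X * Real.log X ^ A := by
  obtain ⟨C, c, κ, A, hC, hc, hκ, h⟩ := card_all' T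
  set q := Real.exp (-(c / 2)) with hq
  have hq0 : 0 < q := Real.exp_pos _
  have hq1 : q < 1 := by rw [hq, Real.exp_lt_one_iff]; linarith
  refine ⟨(3 + C) * (1 - q)⁻¹, c / 2, κ, A, mul_pos (by linarith) (inv_pos.2 (by linarith)),
    by positivity, hκ, fun X ρ hX hρ0 hρ1 n hn => ?_⟩
  have hX0 : (0 : ℝ) < X := by exact_mod_cast (by omega : 0 < X)
  have hL1 := log_ge_one hX
  set L := Real.log X with hLdef
  have hLA : 1 ≤ L ^ A := one_le_pow₀ hL1
  set K : ℕ := ⌈κ * (ρ * L)⌉₊ with hK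
  have hKκ : κ * (ρ * L) ≤ K := Nat.le_ceil _
  set R : ℕ := (sqf X).sup n with hR
  have hcard : ∀ r : ℕ, ((((sqf X).filter fun d => r ≤ n d - K).card : ℕ) : ℝ) ≤
      (3 + C) * X * L ^ A * Real.exp (-(c * r)) := by
    intro r
    rcases Nat.eq_zero_or_pos r with rfl | hr
    · have h1 : ((((sqf X).filter fun d => 0 ≤ n d - K).card : ℕ) : ℝ) ≤ 3 * X := by
        refine le_trans ?_ (card_sqf (X := X) (by omega))
        exact_mod_cast Finset.card_filter_le _ _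
      refine h1.trans ?_
      simp only [Nat.cast_zero, mul_zero, neg_zero, Real.exp_zero, mul_one]
      calc 3 * (X : ℝ) = 3 * X * 1 := by ring
        _ ≤ (3 + C) * X * L ^ A := by gcongr; linarith
    · have hsub : ((sqf X).filter fun d => r ≤ n d - K) ⊆ SZ T X (r + K) ρ := by
        intro d hd
        obtain ⟨hd1, hd2⟩ := Finset.mem_filter.1 hd
        exact (mem_SZ T).2 ⟨hd1, (hn d hd1).mono (by omega)⟩
      calc ((((sqf X).filter fun d => r ≤ n d - K).card : ℕ) : ℝ)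
          ≤ ((SZ T X (r + K) ρ).card : ℝ) := by exact_mod_cast Finset.card_le_card hsub
        _ ≤ C * X * L ^ A * Real.exp (-(c * ((r + K : ℕ) - κ * (ρ * L)))) :=
            h X (r + K) ρ hX hρ0 hρ1
        _ ≤ (3 + C) * X * L ^ A * Real.exp (-(c * r)) := by
            gcongr
            · linarith
            · push_cast
              linarith
  have step : ∀ d ∈ sqf X, Real.exp (c / 2 * (n d - K : ℕ)) ≤
      ∑ r ∈ Finset.range (R + 1), if r ≤ n d - K then Real.exp (c / 2 * r) else 0 := by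
    intro d hd
    have h1 : n d - K ∈ Finset.range (R + 1) :=
      Finset.mem_range.2 (Nat.lt_succ_of_le ((Nat.sub_le _ _).trans (Finset.le_sup (f := n) hd)))
    calc Real.exp (c / 2 * (n d - K : ℕ)) =
          if n d - K ≤ n d - K then Real.exp (c / 2 * (n d - K : ℕ)) else 0 := by
          rw [if_pos le_rfl]
      _ ≤ _ := Finset.single_le_sum
          (f := fun r : ℕ => if r ≤ n d - K then Real.exp (c / 2 * r) else 0)
          (fun r _ => by positivity) h1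
  calc ∑ d ∈ sqf X, Real.exp (c / 2 * (n d - K : ℕ))
      ≤ ∑ d ∈ sqf X, ∑ r ∈ Finset.range (R + 1),
        (if r ≤ n d - K then Real.exp (c / 2 * r) else 0) := Finset.sum_le_sum step
    _ = ∑ r ∈ Finset.range (R + 1), ∑ d ∈ sqf X,
        (if r ≤ n d - K then Real.exp (c / 2 * r) else 0) := Finset.sum_comm
    _ = ∑ r ∈ Finset.range (R + 1),
        ((((sqf X).filter fun d => r ≤ n d - K).card : ℕ) : ℝ) * Real.exp (c / 2 * r) := by
        refine Finset.sum_congr rfl fun r _ => ?_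
        rw [← Finset.sum_filter, Finset.sum_const, nsmul_eq_mul]
    _ ≤ ∑ r ∈ Finset.range (R + 1), ((3 + C) * X * L ^ A) * q ^ r := by
        refine Finset.sum_le_sum fun r _ => ?_
        have h3 : Real.exp (-(c * r)) * Real.exp (c / 2 * r) = q ^ r := by
          rw [← Real.exp_add, hq, ← Real.exp_nat_mul]; congr 1; ring
        calc ((((sqf X).filter fun d => r ≤ n d - K).card : ℕ) : ℝ) * Real.exp (c / 2 * r)
            ≤ (3 + C) * X * L ^ A * Real.exp (-(c * r)) * Real.exp (c / 2 * r) := by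
              gcongr; exact hcard r
          _ = _ := by rw [mul_assoc, h3]
    _ = ((3 + C) * X * L ^ A) * ∑ r ∈ Finset.range (R + 1), q ^ r := by rw [Finset.mul_sum]
    _ ≤ ((3 + C) * X * L ^ A) * (1 - q)⁻¹ := by
        gcongr
        rw [← tsum_geometric_of_lt_one hq0.le hq1]
        exact (summable_geometric_of_lt_one hq0.le hq1).sum_le_tsum _ (fun i _ => by positivity)
    _ = _ := by ring

end Pool.Agent.H37QT
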