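import Pool.Agent.Y180.QT12d1

/-!
Several zeros near `1/2` force a large mean value (a version of `Pool.Agent.Y180.QT12d1` for all the
zeros in a small disc).
-/

set_option autoImplicit false

namespace Pool.Agent.H37QT

open Complex MeasureTheory Filter Topology
open Pool.Agent.Y180.QT12d1
open scoped ENNReal

/-- the function `f` has at least `r` zeros, with multiplicities, at distance at most `ρ` from `1/2` -/
def HasZ (f : ℂ → ℂ) (ρ : ℝ) (r : ℕ) : Prop :=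
  ∃ (Z : Finset ℂ) (m : ℂ → ℕ),
    (∀ a ∈ Z, ‖a - 1 / 2‖ ≤ ρ ∧ (m a : ℕ∞) ≤ analyticOrderAt f a) ∧ r ≤ ∑ a ∈ Z, m a

theorem HasZ.mono {f : ℂ → ℂ} {ρ : ℝ} {r s : ℕ} (h : HasZ f ρ r) (hs : s ≤ r) : HasZ f ρ s := by
  obtain ⟨Z, m, h1, h2⟩ := h
  exact ⟨Z, m, h1, hs.trans h2⟩

/-- division by several zeros -/
theorem fac {L : ℂ → ℂ} {U : Set ℂ} (hU : IsOpen U) (hL : DifferentiableOn ℂ L U) (m : ℂ → ℕ)
    (Z : Finset ℂ) (hZ : ∀ a ∈ Z, a ∈ U ∧ (m a : ℕ∞) ≤ analyticOrderAt L a) :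
    ∃ g : ℂ → ℂ, DifferentiableOn ℂ g U ∧ ∀ z ∈ U, L z = (∏ a ∈ Z, (z - a) ^ m a) * g z := by
  classical
  induction Z using Finset.induction_on with
  | empty => exact ⟨L, hL, fun z _ => by simp⟩
  | insert a Z ha ih =>
    obtain ⟨g, hg, hg2⟩ := ih fun b hb => hZ b (Finset.mem_insert_of_mem hb)
    obtain ⟨haU, ham⟩ := hZ a (Finset.mem_insert_self a Z)
    have h1 : (m a : ℕ∞) ≤ analyticOrderAt g a := by
      have e1 : L =ᶠ[𝓝 a] (fun z => ∏ b ∈ Z, (z - b) ^ m b) * g := by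
        filter_upwards [hU.mem_nhds haU] with z hz
        exact hg2 z hz
      have hP : AnalyticAt ℂ (fun z => ∏ b ∈ Z, (z - b) ^ m b) a := by
        have : Differentiable ℂ (fun z => ∏ b ∈ Z, (z - b) ^ m b) := by fun_prop
        exact this.analyticAt a
      have hP0 : (fun z => ∏ b ∈ Z, (z - b) ^ m b) a ≠ 0 := by
        refine Finset.prod_ne_zero_iff.2 fun b hb => pow_ne_zero _ (sub_ne_zero.2 ?_)
        rintro rfl
        exact ha hb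
      rw [analyticOrderAt_congr e1, analyticOrderAt_mul hP (hg.analyticAt (hU.mem_nhds haU)),
        hP.analyticOrderAt_eq_zero.2 hP0, zero_add] at ham
      exact ham
    obtain ⟨g', hg', hg2'⟩ := exists_quot hU haU hg h1
    refine ⟨g', hg', fun z hz => ?_⟩
    rw [hg2 z hz, hg2' z hz, Finset.prod_insert ha]
    ring

/-- the polynomial is much smaller at `1/2 + δ` -/
theorem pol_le {Z : Finset ℂ} {m : ℂ → ℕ} {ρ δ : ℝ} {r : ℕ} (hρ : 4 * ρ ≤ δ)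
    (hZ : ∀ a ∈ Z, ‖a - 1 / 2‖ ≤ ρ) (hr : r ≤ ∑ a ∈ Z, m a) (hδ : 0 < δ) {z : ℂ}
    (hz : 5 * δ ≤ ‖z - (1 / 2 + δ)‖) :
    3 ^ r * ‖∏ a ∈ Z, ((1 / 2 + δ : ℂ) - a) ^ m a‖ ≤ ‖∏ a ∈ Z, (z - a) ^ m a‖ := by
  have h1 : ∀ a ∈ Z, 3 * ‖(1 / 2 + δ : ℂ) - a‖ ≤ ‖z - a‖ := by
    intro a ha
    have h2 : ‖(1 / 2 + δ : ℂ) - a‖ ≤ 5 / 4 * δ := by
      calc ‖(1 / 2 + δ : ℂ) - a‖ = ‖(δ : ℂ) - (a - 1 / 2)‖ := by congr 1; ring
        _ ≤ ‖(δ : ℂ)‖ + ‖a - 1 / 2‖ := norm_sub_le _ _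
        _ ≤ δ + ρ := by
          rw [Complex.norm_real, Real.norm_eq_abs, abs_of_pos hδ]
          linarith [hZ a ha]
        _ ≤ 5 / 4 * δ := by linarith
    have h3 : ‖z - (1 / 2 + δ)‖ ≤ ‖z - a‖ + ‖(1 / 2 + δ : ℂ) - a‖ := by
      have : z - (1 / 2 + δ) = (z - a) - ((1 / 2 + δ : ℂ) - a) := by ring
      rw [this]
      exact norm_sub_le _ _
    linarith
  rw [norm_prod, norm_prod]
  calc (3 : ℝ) ^ r * ∏ a ∈ Z, ‖((1 / 2 + δ : ℂ) - a) ^ m a‖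
      ≤ 3 ^ (∑ a ∈ Z, m a) * ∏ a ∈ Z, ‖((1 / 2 + δ : ℂ) - a) ^ m a‖ := by
        gcongr
        norm_num
    _ = ∏ a ∈ Z, (3 * ‖(1 / 2 + δ : ℂ) - a‖) ^ m a := by
        rw [← Finset.prod_pow_eq_pow_sum, ← Finset.prod_mul_distrib]
        refine Finset.prod_congr rfl fun a _ => ?_
        rw [norm_pow, mul_pow]
    _ ≤ ∏ a ∈ Z, ‖(z - a) ^ m a‖ := by
        refine Finset.prod_le_prod (fun a _ => by positivity) fun a ha => ?_
        rw [norm_pow]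
        exact pow_le_pow_left₀ (by positivity) (h1 a ha) _

/-- step A -/
theorem stepA' {L M g P : ℂ → ℂ} {δ K : ℝ} (hK : 0 ≤ K) (hδ : 0 < δ)
    (hg1 : DifferentiableOn ℂ g (Metric.ball (1 / 2) (20 * δ)))
    (hM : DifferentiableOn ℂ M (Metric.ball (1 / 2) (20 * δ)))
    (hg2 : ∀ z ∈ Metric.ball (1 / 2 : ℂ) (20 * δ), L z = P z * g z)
    (hP : ∀ z : ℂ, 5 * δ ≤ ‖z - (1 / 2 + δ)‖ → K * ‖P (1 / 2 + δ)‖ ≤ ‖P z‖)
    {R : ℝ} (hR1 : 5 * δ ≤ R) (hR2 : R ≤ 8 * δ) :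
    ENNReal.ofReal (2 * Real.pi) * ENNReal.ofReal (K * ‖L (1 / 2 + δ) * M (1 / 2 + δ)‖) ≤
      ∫⁻ θ in Set.Ioo (-Real.pi) Real.pi, ‖L (1 / 2 + δ + ((R * Real.cos θ : ℝ) +
        (R * Real.sin θ : ℝ) * I))‖ₑ * ‖M (1 / 2 + δ + ((R * Real.cos θ : ℝ) +
        (R * Real.sin θ : ℝ) * I))‖ₑ := by
  have hR0 : 0 < R := by linarith
  have hsub : Metric.closedBall (1 / 2 + δ : ℂ) R ⊆ Metric.ball (1 / 2 : ℂ) (20 * δ) := by
    intro z hz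
    rw [Metric.mem_closedBall, dist_eq_norm] at hz
    rw [Metric.mem_ball, dist_eq_norm]
    calc ‖z - 1 / 2‖ = ‖(z - (1 / 2 + δ)) + δ‖ := by congr 1; ring
      _ ≤ ‖z - (1 / 2 + δ)‖ + ‖(δ : ℂ)‖ := norm_add_le _ _
      _ ≤ R + δ := by
        rw [Complex.norm_real, Real.norm_eq_abs, abs_of_pos hδ]
        linarith
      _ < 20 * δ := by linarith
  have h1 := circle (H := fun z => g z * M z) hR0 ((hg1.mul hM).mono hsub)
  have hc : ∀ θ : ℝ, circleMap (1 / 2 + δ : ℂ) R θ = 1 / 2 + δ + ((R * Real.cos θ : ℝ) +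
      (R * Real.sin θ : ℝ) * I) := by
    intro θ
    unfold circleMap
    rw [Complex.exp_mul_I]
    push_cast
    ring
  have h2 : ∀ θ : ℝ, ENNReal.ofReal (K * ‖P (1 / 2 + δ)‖) *
      ‖g (circleMap (1 / 2 + δ : ℂ) R θ) * M (circleMap (1 / 2 + δ : ℂ) R θ)‖ₑ ≤
      ‖L (1 / 2 + δ + ((R * Real.cos θ : ℝ) + (R * Real.sin θ : ℝ) * I))‖ₑ *
        ‖M (1 / 2 + δ + ((R * Real.cos θ : ℝ) + (R * Real.sin θ : ℝ) * I))‖ₑ := by
    intro θ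
    rw [← hc θ]
    set z := circleMap (1 / 2 + δ : ℂ) R θ with hz
    have hzs : z ∈ Metric.closedBall (1 / 2 + δ : ℂ) R :=
      Metric.sphere_subset_closedBall (circleMap_mem_sphere _ hR0.le θ)
    have hzd : ‖z - (1 / 2 + δ)‖ = R := by
      have := circleMap_mem_sphere (1 / 2 + δ : ℂ) hR0.le θ
      rwa [mem_sphere_iff_norm] at this
    have h6 : L z = P z * g z := hg2 z (hsub hzs)
    rw [h6, enorm_mul, enorm_mul, ← mul_assoc]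
    gcongr
    rw [← ofReal_norm]
    exact ENNReal.ofReal_le_ofReal (hP z (by rw [hzd]; exact hR1))
  have h3 : ENNReal.ofReal (K * ‖L (1 / 2 + δ) * M (1 / 2 + δ)‖) =
      ENNReal.ofReal (K * ‖P (1 / 2 + δ)‖) * ‖g (1 / 2 + δ) * M (1 / 2 + δ)‖ₑ := by
    have h6 : L (1 / 2 + δ) = P (1 / 2 + δ) * g (1 / 2 + δ) :=
      hg2 _ (hsub (Metric.mem_closedBall_self hR0.le))
    rw [h6, ← ofReal_norm, ← ENNReal.ofReal_mul (by positivity)]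
    congr 1
    rw [mul_assoc (P (1 / 2 + δ)), norm_mul (P (1 / 2 + δ)), mul_assoc]
  rw [h3]
  calc ENNReal.ofReal (2 * Real.pi) * (ENNReal.ofReal (K * ‖P (1 / 2 + δ)‖) *
        ‖g (1 / 2 + δ) * M (1 / 2 + δ)‖ₑ)
      = ENNReal.ofReal (K * ‖P (1 / 2 + δ)‖) * (ENNReal.ofReal (2 * Real.pi) *
        ‖g (1 / 2 + δ) * M (1 / 2 + δ)‖ₑ) := by ring
    _ ≤ ENNReal.ofReal (K * ‖P (1 / 2 + δ)‖) * ∫⁻ θ in Set.Ioo (-Real.pi) Real.pi,
        ‖g (circleMap (1 / 2 + δ : ℂ) R θ) * M (circleMap (1 / 2 + δ : ℂ) R θ)‖ₑ := by gcongr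
    _ = ∫⁻ θ in Set.Ioo (-Real.pi) Real.pi, ENNReal.ofReal (K * ‖P (1 / 2 + δ)‖) *
        ‖g (circleMap (1 / 2 + δ : ℂ) R θ) * M (circleMap (1 / 2 + δ : ℂ) R θ)‖ₑ := by
        rw [lintegral_const_mul' _ _ ENNReal.ofReal_ne_top]
    _ ≤ _ := lintegral_mono fun θ => h2 θ

/-- step B -/
theorem stepB' {L M g P : ℂ → ℂ} {δ K : ℝ} (hK : 0 ≤ K) (hδ : 0 < δ)
    (hL : DifferentiableOn ℂ L (Metric.ball (1 / 2) (20 * δ)))
    (hM : DifferentiableOn ℂ M (Metric.ball (1 / 2) (20 * δ)))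
    (hg1 : DifferentiableOn ℂ g (Metric.ball (1 / 2) (20 * δ)))
    (hg2 : ∀ z ∈ Metric.ball (1 / 2 : ℂ) (20 * δ), L z = P z * g z)
    (hP : ∀ z : ℂ, 5 * δ ≤ ‖z - (1 / 2 + δ)‖ → K * ‖P (1 / 2 + δ)‖ ≤ ‖P z‖) :
    ENNReal.ofReal (3 * δ * (5 * δ)) * (ENNReal.ofReal (2 * Real.pi) *
      ENNReal.ofReal (K * ‖L (1 / 2 + δ) * M (1 / 2 + δ)‖)) ≤
      ∫⁻ p in Sq δ, ‖L (pt δ p)‖ₑ * ‖M (pt δ p)‖ₑ := by
  set Φ : ℝ × ℝ → ℝ≥0∞ := (Sq δ).indicator fun p => ‖L (pt δ p)‖ₑ * ‖M (pt δ p)‖ₑ with hΦ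
  rw [← lintegral_indicator (measurableSet_Sq δ), ← hΦ, ← lintegral_comp_polarCoord_symm]
  set A : Set (ℝ × ℝ) := Set.Icc (5 * δ) (8 * δ) ×ˢ Set.Ioo (-Real.pi) Real.pi with hA
  have hAt : A ⊆ polarCoord.target := by
    rintro ⟨R, θ⟩ ⟨hR, hθ⟩
    rw [polarCoord_target]
    refine ⟨?_, hθ⟩
    have h1 : 5 * δ ≤ R := hR.1
    exact lt_of_lt_of_le (by positivity) h1
  have hsq : ∀ R θ : ℝ, 5 * δ ≤ R → R ≤ 8 * δ → (R * Real.cos θ, R * Real.sin θ) ∈ Sq δ := by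
    intro R θ h1 h2
    have hR0 : 0 ≤ R := by linarith
    refine ⟨abs_le.1 ?_, abs_le.1 ?_⟩
    · dsimp only
      rw [abs_mul, abs_of_nonneg hR0]
      exact (mul_le_of_le_one_right hR0 (Real.abs_cos_le_one θ)).trans h2
    · dsimp only
      rw [abs_mul, abs_of_nonneg hR0]
      exact (mul_le_of_le_one_right hR0 (Real.abs_sin_le_one θ)).trans h2
  have hAm : MeasurableSet A := measurableSet_Icc.prod measurableSet_Ioo
  have h1 : ∫⁻ p in A, ENNReal.ofReal p.1 * (‖L (pt δ (p.1 * Real.cos p.2, p.1 * Real.sin p.2))‖ₑ *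
      ‖M (pt δ (p.1 * Real.cos p.2, p.1 * Real.sin p.2))‖ₑ) ≤
      ∫⁻ p in polarCoord.target, ENNReal.ofReal p.1 • Φ (polarCoord.symm p) := by
    refine le_trans (le_of_eq ?_) (lintegral_mono_set hAt)
    refine setLIntegral_congr_fun hAm ?_
    rintro ⟨R, θ⟩ ⟨hR, hθ⟩
    dsimp only
    rw [polarCoord_symm_apply, hΦ, Set.indicator_of_mem (hsq R θ hR.1 hR.2), smul_eq_mul]
  refine le_trans ?_ h1
  have hcont : ContinuousOn (fun p : ℝ × ℝ => ((p.1 * Real.cos p.2, p.1 * Real.sin p.2) : ℝ × ℝ)) A :=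
    (by fun_prop : Continuous (fun p : ℝ × ℝ =>
      ((p.1 * Real.cos p.2, p.1 * Real.sin p.2) : ℝ × ℝ))).continuousOn
  have hmaps : Set.MapsTo (fun p : ℝ × ℝ => ((p.1 * Real.cos p.2, p.1 * Real.sin p.2) : ℝ × ℝ)) A
      (Sq δ) := by
    rintro ⟨R, θ⟩ ⟨hR, hθ⟩
    exact hsq R θ hR.1 hR.2
  have hmeas : AEMeasurable (fun p : ℝ × ℝ => ENNReal.ofReal p.1 *
      (‖L (pt δ (p.1 * Real.cos p.2, p.1 * Real.sin p.2))‖ₑ *
      ‖M (pt δ (p.1 * Real.cos p.2, p.1 * Real.sin p.2))‖ₑ))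
      ((volume.restrict (Set.Icc (5 * δ) (8 * δ))).prod
        (volume.restrict (Set.Ioo (-Real.pi) Real.pi))) := by
    rw [Measure.prod_restrict]
    have hl := ((contOn hδ hL).comp hcont hmaps).aestronglyMeasurable hAm (μ := volume)
    have hm := ((contOn hδ hM).comp hcont hmaps).aestronglyMeasurable hAm (μ := volume)
    exact (measurable_fst.ennreal_ofReal.aemeasurable).mul (hl.enorm.mul hm.enorm)
  rw [Measure.volume_eq_prod, ← Measure.prod_restrict, lintegral_prod _ hmeas]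
  calc ENNReal.ofReal (3 * δ * (5 * δ)) * (ENNReal.ofReal (2 * Real.pi) *
        ENNReal.ofReal (K * ‖L (1 / 2 + δ) * M (1 / 2 + δ)‖))
      = ∫⁻ _ in Set.Icc (5 * δ) (8 * δ), ENNReal.ofReal (5 * δ) * (ENNReal.ofReal (2 * Real.pi) *
        ENNReal.ofReal (K * ‖L (1 / 2 + δ) * M (1 / 2 + δ)‖)) := by
        rw [setLIntegral_const, Real.volume_Icc, ENNReal.ofReal_mul (by positivity)]
        rw [show 8 * δ - 5 * δ = 3 * δ by ring]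
        ring
    _ ≤ _ := by
        refine setLIntegral_mono' measurableSet_Icc fun R hR => ?_
        dsimp only
        have hA2 := stepA' hK hδ hg1 hM hg2 hP hR.1 hR.2
        rw [lintegral_const_mul' _ _ ENNReal.ofReal_ne_top]
        refine mul_le_mul' (ENNReal.ofReal_le_ofReal hR.1) ?_
        exact hA2

end Pool.Agent.H37QT
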