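import Pool.Agent.H37QT.Count
import Pool.Agent.Y19.QT.Fin2
import Pool.Agent.Y19.QT.Fams
import Pool.Agent.Y203.QTZ5

/-!
The number of zeros of the `L`-functions of quadratic twists in small discs around the central point.
-/

set_option autoImplicit false

namespace Pool.Agent.H37QT

open Complex Filter Topology Set
open Pool.Agent.Y19.QT Pool.Agent.Y703.QT8 Pool.Agent.Y703.QT12 Pool.Agent.Y705.QT
open Pool.Agent.Y180.QT12b2 (Ep cx Ep_bound Ep_diff Lq_eq lj_le)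
open scoped ENNReal

noncomputable section

/-- the number of zeros `z` of `F`, with multiplicities, with `|z - 1| ≤ ρ` -/
def zeros (F : ℂ → ℂ) (ρ : ℝ) : ℝ≥0∞ :=
  ∑' z : ℂ, if ‖z - 1‖ ≤ ρ then ((analyticOrderAt F z : ℕ∞) : ℝ≥0∞) else 0

/-- the rank of `E(ℚ)` for `E : y² = x³ + a x + b`, plus the number of the zeros `z` of `F`, with
multiplicities, with `|z - 1| ≤ ρ` -/
def rz (a b : ℤ) (F : ℂ → ℂ) (ρ : ℝ) : ℝ := Module.finrank ℤ (EQ a b) + (zeros F ρ).toReal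

theorem zeros_zero (F : ℂ → ℂ) : zeros F 0 = ((analyticOrderAt F 1 : ℕ∞) : ℝ≥0∞) := by
  unfold zeros
  rw [tsum_eq_single 1]
  · simp
  · intro z hz
    rw [if_neg]
    intro h
    exact hz (sub_eq_zero.1 (norm_le_zero_iff.1 h))

/-- Zeros near the central point for the quadratic twists `E_d : y² = x³ + a d² x + b d³` of
`y² = x³ + a x + b`. -/
def Law (a b : ℤ) : Prop :=
  (∀ d : ℤ, Squarefree d → Module.Finite ℤ (EQ (a * d ^ 2) (b * d ^ 3)) ∧
    ∃! F : ℂ → ℂ, IsLFun (a * d ^ 2) (b * d ^ 3) F) ∧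
  ∀ F : ℤ → ℂ → ℂ, (∀ d : ℤ, Squarefree d → IsLFun (a * d ^ 2) (b * d ^ 3) (F d)) →
    (∀ (d : ℤ) (ρ : ℝ), Squarefree d → ρ ≤ 1 / 8 → zeros (F d) ρ ≠ ⊤) ∧
    (∃ (C c κ : ℝ) (A : ℕ), 0 < c ∧ ∀ (X : ℕ) (ρ : ℝ), 3 ≤ X → 0 ≤ ρ → ρ ≤ 1 / 8 →
      ∑ d ∈ sqf X, Real.exp (c * (rz (a * d ^ 2) (b * d ^ 3) (F d) ρ - κ * (ρ * Real.log X))) ≤
        C * X * Real.log X ^ A) ∧
    ∀ k B : ℕ, ∃ C : ℝ, ∀ (X : ℕ) (ρ : ℝ) (S : Finset ℤ), 3 ≤ X → 0 ≤ ρ → ρ ≤ 1 / 8 →
      S ⊆ sqf X → ∑ d ∈ S, rz (a * d ^ 2) (b * d ^ 3) (F d) ρ ^ k ≤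
        C * (S.card + X / Real.log X ^ B) * (1 + Real.log (Real.log X) + ρ * Real.log X) ^ k

variable {Q : ℕ} {lam : ℕ → ℝ} (T : Twists Q lam)

theorem Ep_ne {d : ℤ} (hd : Squarefree d) {s : ℂ} (hs : 1 / 4 ≤ s.re) : Ep T d s ≠ 0 := by
  have sE : LSeriesSummable (fun n => (T.e d n : ℂ)) s := (hE_bound _ _ (T.e_sum d hd) s hs).1
  have sE' : LSeriesSummable (fun n => (T.e' d n : ℂ)) s := (hE_bound _ _ (T.e'_sum d hd) s hs).1
  have hEE : LSeries (fun n => (T.e d n : ℂ)) s * LSeries (fun n => (T.e' d n : ℂ)) s = 1 := by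
    rw [← LSeries_convolution' sE sE']
    have h5 : LSeries (LSeries.convolution (fun n => (T.e d n : ℂ)) (fun n => (T.e' d n : ℂ))) s =
        LSeries LSeries.delta s := by
      apply LSeries_congr
      intro n hn
      rw [LSeries.convolution_def]
      show ∑ p ∈ n.divisorsAntidiagonal, (T.e d p.1 : ℂ) * (T.e' d p.2 : ℂ) = LSeries.delta n
      have h6 := T.e_inv d hd n (Nat.one_le_iff_ne_zero.mpr hn)
      have h7 : ((∑ x ∈ n.divisorsAntidiagonal, T.e d x.1 * T.e' d x.2 : ℝ) : ℂ) =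
          ((if n = 1 then 1 else 0 : ℝ) : ℂ) := by rw [h6]
      rw [ofReal_sum] at h7
      simp only [ofReal_mul] at h7
      rw [h7, LSeries.delta]
      split_ifs <;> simp
    rw [h5, LSeries_delta]
    rfl
  have e1 : Ep T d s = LSeries (fun n => (T.e' d n : ℂ)) s :=
    tsum_eq_ls (fun n => (T.e' d n : ℂ)) (by simp [(T.e_zero d hd).2]) s
  rw [e1]
  intro h
  rw [h, mul_zero] at hEE
  exact zero_ne_one hEE

theorem order_Lq {d : ℤ} (hd : Squarefree d) {s : ℂ} (hs : 1 / 4 < s.re) :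
    analyticOrderAt (T.Lq d) s = analyticOrderAt (T.ell d) s := by
  have hmem : {s : ℂ | 1 / 4 < s.re} ∈ 𝓝 s :=
    (isOpen_lt continuous_const continuous_re).mem_nhds hs
  have h1 : AnalyticAt ℂ (T.ell d) s := (T8a T d hd).1.analyticAt _
  have h2 : AnalyticAt ℂ (Ep T d) s := (Ep_diff T hd).analyticAt hmem
  have e : T.Lq d = T.ell d * Ep T d := rfl
  rw [e, analyticOrderAt_mul h1 h2, h2.analyticOrderAt_eq_zero.2 (Ep_ne T hd hs.le), add_zero]

theorem hasZ_top {f : ℂ → ℂ} {ρ : ℝ} {a : ℂ} (ha : ‖a - 1 / 2‖ ≤ ρ) (h : analyticOrderAt f a = ⊤)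
    (r : ℕ) : HasZ f ρ r := by
  refine ⟨{a}, fun _ => r, fun b hb => ?_, by simp⟩
  rw [Finset.mem_singleton] at hb
  subst hb
  exact ⟨ha, by rw [h]; exact le_top⟩

/-- the number of zeros of `F` is bounded by that of `T.ell d` -/
theorem zeros_le (a b : ℤ) (hab : 4 * a ^ 3 + 27 * b ^ 2 ≠ 0)
    (hQ : ∀ p : ℕ, p.Prime → (p : ℤ) ∣ 2 * (4 * a ^ 3 + 27 * b ^ 2) → p ∣ Q)
    (hlam : ∀ p : ℕ, p.Prime → ¬ p ∣ Q → lam p = ap a b p / Real.sqrt p)
    {d : ℤ} (hd : Squarefree d) {F : ℂ → ℂ} (hF : IsLFun (a * d ^ 2) (b * d ^ 3) F) {ρ : ℝ}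
    (hρ : ρ ≤ 1 / 8) {N : ℕ} (hN : ∀ r : ℕ, HasZ (T.ell d) ρ r → r ≤ N) :
    zeros F ρ ≤ (N : ℝ≥0∞) := by
  classical
  have hre : ∀ s : ℂ, ‖s - 1 / 2‖ ≤ ρ → 1 / 4 < s.re := by
    intro s hs
    have h3 := (Complex.abs_re_le_norm (s - 1 / 2)).trans hs
    have h4 : (s - 1 / 2).re = s.re - 1 / 2 := by simp
    rw [h4] at h3
    have := (abs_le.1 h3).1
    linarith
  have htop : ∀ s : ℂ, ‖s - 1 / 2‖ ≤ ρ → analyticOrderAt (T.ell d) s ≠ ⊤ := by
    intro s hs h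
    have := hN (N + 1) (hasZ_top hs h (N + 1))
    omega
  unfold zeros
  rw [← (Equiv.addRight (1 / 2 : ℂ)).tsum_eq, ENNReal.tsum_eq_iSup_sum]
  refine iSup_le fun s => ?_
  have h1 : ∀ z : ℂ, (if ‖(Equiv.addRight (1 / 2 : ℂ)) z - 1‖ ≤ ρ then
      ((analyticOrderAt F ((Equiv.addRight (1 / 2 : ℂ)) z) : ℕ∞) : ℝ≥0∞) else 0) =
      (if ‖z - 1 / 2‖ ≤ ρ then (((analyticOrderAt (T.ell d) z).toNat : ℕ) : ℝ≥0∞) else 0) := by
    intro z
    have e1 : (Equiv.addRight (1 / 2 : ℂ)) z = z + 1 / 2 := rfl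
    have e2 : z + 1 / 2 - 1 = z - 1 / 2 := by ring
    rw [e1, e2]
    split_ifs with hz
    · rw [Pool.Agent.Y203.QTZ5.Z5 a b hab Q lam T hQ hlam d hd F hF z (hre z hz),
        order_Lq T hd (hre z hz)]
      conv_lhs => rw [← ENat.natCast_toNat (htop z hz)]
      exact ENat.toENNReal_coe _
    · rfl
  rw [Finset.sum_congr rfl fun z _ => h1 z, ← Finset.sum_filter]
  have h2 : HasZ (T.ell d) ρ (∑ z ∈ s.filter (fun z => ‖z - 1 / 2‖ ≤ ρ),
      (analyticOrderAt (T.ell d) z).toNat) := by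
    refine ⟨s.filter (fun z => ‖z - 1 / 2‖ ≤ ρ), fun z => (analyticOrderAt (T.ell d) z).toNat,
      fun z hz => ?_, le_rfl⟩
    have hz' := (Finset.mem_filter.1 hz).2
    exact ⟨hz', by rw [ENat.natCast_toNat (htop z hz')]⟩
  exact_mod_cast hN _ h2

theorem hasZ_zero (f : ℂ → ℂ) (ρ : ℝ) : HasZ f ρ 0 := ⟨∅, fun _ => 0, by simp, by simp⟩

/-- the number of zeros of `T.ell d` in the disc -/
def nn (d : ℤ) (ρ : ℝ) : ℕ := sSup {r : ℕ | HasZ (T.ell d) ρ r}

theorem nn_bdd {d : ℤ} (hd : Squarefree d) {ρ : ℝ} (hρ : ρ ≤ 1 / 8) :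
    BddAbove {r : ℕ | HasZ (T.ell d) ρ r} := by
  obtain ⟨C, hC, h⟩ := ord_bound' T
  refine ⟨⌈C * Real.log ((d.natAbs + 3 : ℕ) : ℝ)⌉₊, fun r hr => ?_⟩
  have := h d (d.natAbs + 3) hd (by omega) (by push_cast; rw [Int.abs_eq_natAbs]; omega) r ρ hρ hr
  exact_mod_cast this.trans (Nat.le_ceil _)

theorem nn_mem {d : ℤ} (hd : Squarefree d) {ρ : ℝ} (hρ : ρ ≤ 1 / 8) : HasZ (T.ell d) ρ (nn T d ρ) :=
  Nat.sSup_mem (s := {r : ℕ | HasZ (T.ell d) ρ r}) ⟨0, hasZ_zero _ _⟩ (nn_bdd T hd hρ)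

theorem le_nn {d : ℤ} (hd : Squarefree d) {ρ : ℝ} (hρ : ρ ≤ 1 / 8) {r : ℕ}
    (h : HasZ (T.ell d) ρ r) : r ≤ nn T d ρ := le_csSup (nn_bdd T hd hρ) h

/-- small exponential moments give small moments over all sets that are not too small -/
theorem moments1 (C c : ℝ) (A : ℕ) (hc : 0 < c) (k B : ℕ) :
    ∃ C' : ℝ, 0 ≤ C' ∧ ∀ (X : ℕ) (x : ℤ → ℕ), 3 ≤ X →
      ∑ d ∈ sqf X, Real.exp (c * x d) ≤ C * X * Real.log X ^ A → ∀ S : Finset ℤ, S ⊆ sqf X →
      ∑ d ∈ S, (x d : ℝ) ^ k ≤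
        C' * (S.card + X / Real.log X ^ B) * (1 + Real.log (Real.log X)) ^ k := by
  refine ⟨max ((2 * (A + B : ℕ) / c) ^ k) ((k.factorial * (2 / c) ^ k) * C),
    le_max_of_le_left (by positivity), fun X x hX h S hS => ?_⟩
  have hl := one_le_log hX
  have hl0 : 0 < Real.log X := by linarith
  have hll : 0 ≤ Real.log (Real.log X) := Real.log_nonneg hl
  have hX0 : (0 : ℝ) ≤ X := Nat.cast_nonneg X
  set L : ℝ := Real.log (Real.log X) with hL
  have hpt : ∀ d ∈ S, (x d : ℝ) ^ k ≤ (2 * (A + B : ℕ) / c * L) ^ k +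
      (k.factorial * (2 / c) ^ k) * (Real.exp (c * x d) / Real.log X ^ (A + B)) := by
    intro d hd
    have hx0 : (0 : ℝ) ≤ x d := Nat.cast_nonneg _
    have hE : (0 : ℝ) < Real.exp (c * x d) / Real.log X ^ (A + B) := by positivity
    by_cases hx : (x d : ℝ) ≤ 2 * (A + B : ℕ) / c * L
    · have h1 := pow_le_pow_left₀ hx0 hx k
      have : 0 ≤ (k.factorial * (2 / c) ^ k) *
        (Real.exp (c * x d) / Real.log X ^ (A + B)) := by positivity
      linarith
    · push Not at hx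
      have h1 : (x d : ℝ) ^ k ≤ (k.factorial * (2 / c) ^ k) * Real.exp (c / 2 * x d) := by
        have h2 := Real.pow_div_factorial_le_exp (c / 2 * x d) (by positivity) k
        rw [div_le_iff₀ (by positivity)] at h2
        have h3 : (x d : ℝ) ^ k = (2 / c) ^ k * (c / 2 * x d) ^ k := by
          rw [← mul_pow]
          congr 1
          field_simp
        rw [h3]
        calc (2 / c) ^ k * (c / 2 * x d) ^ k ≤ (2 / c) ^ k * (Real.exp (c / 2 * x d) * k.factorial) :=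
              mul_le_mul_of_nonneg_left h2 (by positivity)
          _ = _ := by ring
      have h2 : Real.exp (c / 2 * x d) ≤ Real.exp (c * x d) / Real.log X ^ (A + B) := by
        rw [le_div_iff₀ (by positivity)]
        have h3 : Real.log X ^ (A + B) = Real.exp ((A + B : ℕ) * L) := by
          rw [hL, Real.exp_nat_mul, Real.exp_log hl0]
        rw [h3, ← Real.exp_add]
        apply Real.exp_le_exp.2
        have h4 : (A + B : ℕ) * L ≤ c / 2 * x d := by
          have h5 : 2 * (A + B : ℕ) / c * L * (c / 2) ≤ x d * (c / 2) :=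
            mul_le_mul_of_nonneg_right hx.le (by positivity)
          have h6 : 2 * (A + B : ℕ) / c * L * (c / 2) = (A + B : ℕ) * L := by field_simp
          linarith
        linarith
      have h3 := mul_le_mul_of_nonneg_left h2 (show (0 : ℝ) ≤ k.factorial * (2 / c) ^ k by positivity)
      have h4 : (0 : ℝ) ≤ (2 * (A + B : ℕ) / c * L) ^ k := by positivity
      linarith
  refine (Finset.sum_le_sum hpt).trans ?_
  rw [Finset.sum_add_distrib, Finset.sum_const, nsmul_eq_mul, ← Finset.mul_sum, ← Finset.sum_div]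
  have h0 : ∑ d ∈ S, Real.exp (c * x d) ≤ C * X * Real.log X ^ A :=
    (Finset.sum_le_sum_of_subset_of_nonneg hS fun _ _ _ => (Real.exp_pos _).le).trans h
  have h1 : (∑ d ∈ S, Real.exp (c * x d)) / Real.log X ^ (A + B) ≤ C * (X / Real.log X ^ B) := by
    rw [div_le_iff₀ (by positivity)]
    refine h0.trans (le_of_eq ?_)
    rw [pow_add]
    field_simp
  have hLk : L ^ k ≤ (1 + L) ^ k := pow_le_pow_left₀ hll (by linarith) k
  have h1k : (1 : ℝ) ≤ (1 + L) ^ k := one_le_pow₀ (by linarith)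
  have hXB : 0 ≤ X / Real.log X ^ B := by positivity
  have hC0 : 0 ≤ C * (X / Real.log X ^ B) := by
    refine le_trans ?_ h1
    positivity
  have h2 : (S.card : ℝ) * (2 * (A + B : ℕ) / c * L) ^ k ≤
      (2 * (A + B : ℕ) / c) ^ k * S.card * (1 + L) ^ k := by
    rw [mul_pow]
    calc (S.card : ℝ) * ((2 * (A + B : ℕ) / c) ^ k * L ^ k) =
          (2 * (A + B : ℕ) / c) ^ k * S.card * L ^ k := by ring
      _ ≤ _ := mul_le_mul_of_nonneg_left hLk (by positivity)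
  have h3 : (k.factorial * (2 / c) ^ k) *
      ((∑ d ∈ S, Real.exp (c * x d)) / Real.log X ^ (A + B)) ≤
      (k.factorial * (2 / c) ^ k) * C * (X / Real.log X ^ B) * (1 + L) ^ k := by
    calc _ ≤ (k.factorial * (2 / c) ^ k) * (C * (X / Real.log X ^ B)) :=
          mul_le_mul_of_nonneg_left h1 (by positivity)
      _ ≤ (k.factorial * (2 / c) ^ k) * (C * (X / Real.log X ^ B)) * (1 + L) ^ k :=
          le_mul_of_one_le_right (by positivity) h1k
      _ = _ := by ring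
  have h4 : (2 * (A + B : ℕ) / c) ^ k * S.card * (1 + L) ^ k ≤
      max ((2 * (A + B : ℕ) / c) ^ k) ((k.factorial * (2 / c) ^ k) * C) * S.card * (1 + L) ^ k := by
    gcongr
    exact le_max_left _ _
  have h5 : (k.factorial * (2 / c) ^ k) * C * (X / Real.log X ^ B) * (1 + L) ^ k ≤
      max ((2 * (A + B : ℕ) / c) ^ k) ((k.factorial * (2 / c) ^ k) * C) *
        (X / Real.log X ^ B) * (1 + L) ^ k := by
    gcongr
    exact le_max_right _ _
  calc _ ≤ _ := add_le_add (h2.trans h4) (h3.trans h5)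
    _ = _ := by ring

/-- the main estimate -/
theorem main_est {a b : ℤ} (hab : 4 * a ^ 3 + 27 * b ^ 2 ≠ 0) (h : HasTwists a b) :
    ∃ (C c κ : ℝ) (A : ℕ), 0 < C ∧ 0 < c ∧ 0 < κ ∧ ∀ F : ℤ → ℂ → ℂ,
      (∀ d : ℤ, Squarefree d → IsLFun (a * d ^ 2) (b * d ^ 3) (F d)) →
      ∃ n : ℤ → ℝ → ℕ,
        (∀ (d : ℤ) (ρ : ℝ), Squarefree d → ρ ≤ 1 / 8 → zeros (F d) ρ ≤ (n d ρ : ℝ≥0∞)) ∧
        ∀ (X : ℕ) (ρ : ℝ), 3 ≤ X → 0 ≤ ρ → ρ ≤ 1 / 8 →
          ∑ d ∈ sqf X, Real.exp (c * (Module.finrank ℤ (EQ (a * d ^ 2) (b * d ^ 3)) +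
            (n d ρ - ⌈κ * (ρ * Real.log X)⌉₊) : ℕ)) ≤ C * X * Real.log X ^ A := by
  obtain ⟨Q, lam, ⟨T⟩, hQ, hlam⟩ := h
  obtain ⟨C, c, κ, A, hC, hc, hκ, hmom⟩ := expZ T
  obtain ⟨B, hB⟩ := Pool.Agent.Y155.QT14.T14 a b hab
  set c1 : ℝ := min (c / 2) (Real.log 2 / 24) with hc1
  have hc1p : 0 < c1 := lt_min (by positivity) (by have := Real.log_pos one_lt_two; positivity)
  have hc1a : 2 * c1 ≤ c := by have := min_le_left (c / 2) (Real.log 2 / 24); linarith
  have hc1b : 24 * c1 ≤ Real.log 2 := by have := min_le_right (c / 2) (Real.log 2 / 24); linarith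
  refine ⟨Real.exp (2 * c1 * B) * 8 + C, c1, κ, A + 1, by positivity, hc1p, hκ, fun F hF =>
    ⟨fun d ρ => nn T d ρ, fun d ρ hd hρ => ?_, ?_⟩⟩
  · exact zeros_le T a b hab hQ hlam hd (hF d hd) hρ fun r hr => le_nn T hd hρ hr
  · intro X ρ hX hρ0 hρ1
    have hl := one_le_log hX
    have hX0 : (0 : ℝ) ≤ X := Nat.cast_nonneg X
    set K : ℕ := ⌈κ * (ρ * Real.log X)⌉₊ with hK
    have hpt : ∀ d ∈ sqf X, Real.exp (c1 * (Module.finrank ℤ (EQ (a * d ^ 2) (b * d ^ 3)) +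
        (nn T d ρ - K) : ℕ)) ≤
        Real.exp (2 * c1 * B) * (2 : ℝ) ^ d.natAbs.primeFactors.card +
          Real.exp (c * (nn T d ρ - K : ℕ)) := by
      intro d hd
      have hsq : Squarefree d := (mem_sqf.1 hd).2
      set o : ℝ := ((nn T d ρ - K : ℕ) : ℝ) with ho
      set r : ℝ := (Module.finrank ℤ (EQ (a * d ^ 2) (b * d ^ 3)) : ℝ) with hr
      have ho0 : 0 ≤ o := Nat.cast_nonneg _
      have hr0 : 0 ≤ r := Nat.cast_nonneg _
      have hrB : r ≤ B + 12 * d.natAbs.primeFactors.card := by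
        have := hB d hsq.ne_zero
        rw [hr]; exact_mod_cast this
      have h1 : Real.exp (2 * c1 * r) ≤
          Real.exp (2 * c1 * B) * (2 : ℝ) ^ d.natAbs.primeFactors.card := by
        have e1 : (2 : ℝ) ^ d.natAbs.primeFactors.card =
            Real.exp (Real.log 2 * d.natAbs.primeFactors.card) := by
          rw [mul_comm, Real.exp_nat_mul, Real.exp_log two_pos]
        rw [e1, ← Real.exp_add]
        apply Real.exp_le_exp.2
        have hw : (0 : ℝ) ≤ d.natAbs.primeFactors.card := Nat.cast_nonneg _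
        have h2 : 2 * c1 * r ≤ 2 * c1 * (B + 12 * d.natAbs.primeFactors.card) :=
          mul_le_mul_of_nonneg_left hrB (by positivity)
        have h3 : 24 * c1 * d.natAbs.primeFactors.card ≤
            Real.log 2 * d.natAbs.primeFactors.card := mul_le_mul_of_nonneg_right hc1b hw
        linarith
      have h2 : Real.exp (2 * c1 * o) ≤ Real.exp (c * o) := by
        apply Real.exp_le_exp.2
        exact mul_le_mul_of_nonneg_right hc1a ho0
      have h3 : Real.exp (c1 * (r + o)) ≤ Real.exp (2 * c1 * r) + Real.exp (2 * c1 * o) := by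
        rcases le_total r o with h | h
        · have : Real.exp (c1 * (r + o)) ≤ Real.exp (2 * c1 * o) := by
            apply Real.exp_le_exp.2
            nlinarith
          have := Real.exp_pos (2 * c1 * r)
          linarith
        · have : Real.exp (c1 * (r + o)) ≤ Real.exp (2 * c1 * r) := by
            apply Real.exp_le_exp.2
            nlinarith
          have := Real.exp_pos (2 * c1 * o)
          linarith
      have h4 : Real.exp (c1 * (Module.finrank ℤ (EQ (a * d ^ 2) (b * d ^ 3)) +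
        (nn T d ρ - K) : ℕ)) = Real.exp (c1 * (r + o)) := by
        rw [hr, ho]
        push_cast
        rfl
      rw [h4]
      linarith
    refine (Finset.sum_le_sum hpt).trans ?_
    rw [Finset.sum_add_distrib, ← Finset.mul_sum]
    have h4 := Pool.Agent.Y496.QT.T15 X hX
    have h5 := hmom X ρ hX hρ0 hρ1 (fun d => nn T d ρ) (fun d hd => nn_mem T (sqf_sqf hd) hρ1)
    have e0 := Real.exp_pos (2 * c1 * B)
    have hpA : (1 : ℝ) ≤ Real.log X ^ A := one_le_pow₀ hl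
    have h6 : Real.exp (2 * c1 * B) * ∑ d ∈ sqf X, (2 : ℝ) ^ d.natAbs.primeFactors.card ≤
        Real.exp (2 * c1 * B) * 8 * X * Real.log X ^ (A + 1) := by
      have h7 : 4 * X * (1 + Real.log X) ≤ 8 * X * Real.log X ^ (A + 1) := by
        have h8 : 1 + Real.log X ≤ 2 * Real.log X ^ (A + 1) := by
          rw [pow_succ]
          nlinarith
        nlinarith
      have := mul_le_mul_of_nonneg_left (h4.trans h7) e0.le
      linarith
    have h7 : C * X * Real.log X ^ A ≤ C * X * Real.log X ^ (A + 1) := by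
      apply mul_le_mul_of_nonneg_left _ (by positivity)
      exact pow_le_pow_right₀ hl (Nat.le_succ A)
    calc _ ≤ Real.exp (2 * c1 * B) * 8 * X * Real.log X ^ (A + 1) + C * X * Real.log X ^ (A + 1) :=
          add_le_add h6 (h5.trans h7)
      _ = _ := by ring

theorem law_of {a b : ℤ} (hab : 4 * a ^ 3 + 27 * b ^ 2 ≠ 0) (h : HasTwists a b)
    (hL : ∀ d : ℤ, Squarefree d → ∃ F : ℂ → ℂ, IsLFun (a * d ^ 2) (b * d ^ 3) F) : Law a b := by
  obtain ⟨C, c, κ, A, hC, hc, hκ, hmain⟩ := main_est hab h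
  refine ⟨fun d hd => ⟨fg_EQ (disc_ne hab hd.ne_zero), ?_⟩, fun F hF => ?_⟩
  · obtain ⟨F, hF⟩ := hL d hd
    exact ⟨F, hF, fun G hG => isLFun_unique hG hF⟩
  obtain ⟨n, hn, hmom⟩ := hmain F hF
  have hrz : ∀ (d : ℤ) (ρ : ℝ), Squarefree d → ρ ≤ 1 / 8 →
      rz (a * d ^ 2) (b * d ^ 3) (F d) ρ ≤
        (Module.finrank ℤ (EQ (a * d ^ 2) (b * d ^ 3)) : ℝ) + n d ρ := by
    intro d ρ hd hρ
    unfold rz
    have h1 := ENNReal.toReal_mono (ENNReal.natCast_ne_top _) (hn d ρ hd hρ)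
    rw [ENNReal.toReal_natCast] at h1
    linarith
  refine ⟨fun d ρ hd hρ => ne_top_of_le_ne_top (ENNReal.natCast_ne_top _) (hn d ρ hd hρ), ?_, ?_⟩
  · refine ⟨Real.exp c * C, c, κ, A, hc, fun X ρ hX hρ0 hρ1 => ?_⟩
    have hl := one_le_log hX
    have hK : (⌈κ * (ρ * Real.log X)⌉₊ : ℝ) ≤ κ * (ρ * Real.log X) + 1 :=
      (Nat.ceil_lt_add_one (by positivity)).le
    have h1 := hmom X ρ hX hρ0 hρ1
    calc ∑ d ∈ sqf X,
          Real.exp (c * (rz (a * d ^ 2) (b * d ^ 3) (F d) ρ - κ * (ρ * Real.log X)))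
        ≤ ∑ d ∈ sqf X, Real.exp c * Real.exp (c * (Module.finrank ℤ (EQ (a * d ^ 2) (b * d ^ 3)) +
            (n d ρ - ⌈κ * (ρ * Real.log X)⌉₊) : ℕ)) := by
          refine Finset.sum_le_sum fun d hd => ?_
          rw [← Real.exp_add]
          apply Real.exp_le_exp.2
          have h2 := hrz d ρ (mem_sqf.1 hd).2 hρ1
          have h3 : (n d ρ : ℝ) ≤ ((n d ρ - ⌈κ * (ρ * Real.log X)⌉₊ : ℕ) : ℝ) +
              ⌈κ * (ρ * Real.log X)⌉₊ := by
            exact_mod_cast (by omega :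
              n d ρ ≤ (n d ρ - ⌈κ * (ρ * Real.log X)⌉₊) + ⌈κ * (ρ * Real.log X)⌉₊)
          push_cast
          nlinarith
      _ = Real.exp c * ∑ d ∈ sqf X, Real.exp (c * (Module.finrank ℤ (EQ (a * d ^ 2) (b * d ^ 3)) +
            (n d ρ - ⌈κ * (ρ * Real.log X)⌉₊) : ℕ)) := by rw [Finset.mul_sum]
      _ ≤ Real.exp c * (C * X * Real.log X ^ A) := by gcongr
      _ = _ := by ring
  · intro k B
    obtain ⟨C', hC', hm⟩ := moments1 C c A hc k B
    refine ⟨2 ^ k * (C' + (κ + 1) ^ k), fun X ρ S hX hρ0 hρ1 hS => ?_⟩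
    have hl := one_le_log hX
    have hl0 : 0 < Real.log X := by linarith
    have hll : 0 ≤ Real.log (Real.log X) := Real.log_nonneg hl
    have hX0 : (0 : ℝ) ≤ X := Nat.cast_nonneg X
    set Λ : ℝ := ρ * Real.log X with hΛ
    have hΛ0 : 0 ≤ Λ := by positivity
    have hK : (⌈κ * Λ⌉₊ : ℝ) ≤ κ * Λ + 1 := (Nat.ceil_lt_add_one (by positivity)).le
    set x : ℤ → ℕ := fun d => Module.finrank ℤ (EQ (a * d ^ 2) (b * d ^ 3)) +
      (n d ρ - ⌈κ * Λ⌉₊) with hx
    have h1 := hm X x hX (hmom X ρ hX hρ0 hρ1) S hS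
    have hXB : 0 ≤ X / Real.log X ^ B := by positivity
    have hpt : ∀ d ∈ S, rz (a * d ^ 2) (b * d ^ 3) (F d) ρ ^ k ≤
        2 ^ k * ((x d : ℝ) ^ k + ((κ + 1) * (1 + Λ)) ^ k) := by
      intro d hd
      have h2 := hrz d ρ (mem_sqf.1 (hS hd)).2 hρ1
      have h3 : (n d ρ : ℝ) ≤ ((n d ρ - ⌈κ * Λ⌉₊ : ℕ) : ℝ) + ⌈κ * Λ⌉₊ := by
        exact_mod_cast (by omega : n d ρ ≤ (n d ρ - ⌈κ * Λ⌉₊) + ⌈κ * Λ⌉₊)
      have h4 : (x d : ℝ) = (Module.finrank ℤ (EQ (a * d ^ 2) (b * d ^ 3)) : ℝ) +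
          ((n d ρ - ⌈κ * Λ⌉₊ : ℕ) : ℝ) := by
        rw [hx]
        push_cast
        rfl
      have h5 : rz (a * d ^ 2) (b * d ^ 3) (F d) ρ ≤ x d + (κ + 1) * (1 + Λ) := by
        rw [h4]
        nlinarith
      have h6 : 0 ≤ rz (a * d ^ 2) (b * d ^ 3) (F d) ρ := by
        unfold rz
        positivity
      have h7 : (0 : ℝ) ≤ x d := Nat.cast_nonneg _
      have h8 : 0 ≤ (κ + 1) * (1 + Λ) := by positivity
      set u : ℝ := (x d : ℝ) with hu
      set v : ℝ := (κ + 1) * (1 + Λ) with hv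
      calc rz (a * d ^ 2) (b * d ^ 3) (F d) ρ ^ k ≤ (u + v) ^ k := pow_le_pow_left₀ h6 h5 k
        _ ≤ (2 * max u v) ^ k := by
            refine pow_le_pow_left₀ (by positivity) ?_ k
            have := le_max_left u v
            have := le_max_right u v
            linarith
        _ = 2 ^ k * max u v ^ k := mul_pow _ _ _
        _ ≤ 2 ^ k * (u ^ k + v ^ k) := by
            gcongr
            rcases le_total u v with h | h
            · rw [max_eq_right h]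
              have : 0 ≤ u ^ k := by positivity
              linarith
            · rw [max_eq_left h]
              have : 0 ≤ v ^ k := by positivity
              linarith
    refine (Finset.sum_le_sum hpt).trans ?_
    rw [← Finset.mul_sum, Finset.sum_add_distrib, Finset.sum_const, nsmul_eq_mul]
    set W : ℝ := 1 + Real.log (Real.log X) + Λ with hW
    have hW1 : (1 + Real.log (Real.log X)) ^ k ≤ W ^ k :=
      pow_le_pow_left₀ (by linarith) (by linarith) k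
    have hW2 : (1 + Λ) ^ k ≤ W ^ k := pow_le_pow_left₀ (by linarith) (by linarith) k
    have h2 : C' * (S.card + X / Real.log X ^ B) * (1 + Real.log (Real.log X)) ^ k ≤
        C' * (S.card + X / Real.log X ^ B) * W ^ k := by gcongr
    have h3 : (S.card : ℝ) * ((κ + 1) * (1 + Λ)) ^ k ≤
        (κ + 1) ^ k * (S.card + X / Real.log X ^ B) * W ^ k := by
      rw [mul_pow]
      calc (S.card : ℝ) * ((κ + 1) ^ k * (1 + Λ) ^ k) = (κ + 1) ^ k * S.card * (1 + Λ) ^ k := by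
            ring
        _ ≤ (κ + 1) ^ k * (S.card + X / Real.log X ^ B) * W ^ k := by
            gcongr
            linarith
    calc 2 ^ k * (∑ d ∈ S, (x d : ℝ) ^ k + (S.card : ℝ) * ((κ + 1) * (1 + Λ)) ^ k)
        ≤ 2 ^ k * (C' * (S.card + X / Real.log X ^ B) * W ^ k +
          (κ + 1) ^ k * (S.card + X / Real.log X ^ B) * W ^ k) := by
          gcongr
          exact h1.trans h2
      _ = _ := by ring

theorem law_fam {a b : ℤ} (h : Fam a b) : Law a b := law_of h.disc h.data.1 h.data.2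

end

end Pool.Agent.H37QT
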